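import Pool.Agent.Run7.h16.NV.Loc

/-!
The closure properties of the class of the detecting groups for `L`-theory.
-/

namespace Run7.h16.NV

open CategoryTheory Monoid Pool.Agent.Y483 Pool.Agent.Y75.MQ Pool.Agent.Y483.PW
  Pool.Agent.Y110.KW Pool.Agent.R615.KU Pool.Agent.R793.Mag Pool.Agent.R942.NV

theorem closed_detL (ε : ℤˣ) : Closed (fun G _ => DetL ε G) := by
  have hE : HasPT (lgrp ε Unit) := Pool.Agent.Y363.PW.hasPT_lgrp ε Unit
  constructor
  · intro P _ F _ _ S _ T _ I α hα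
    have hT : HasTransfers (lgrp ε T) := lgrp_hasTransfers ε T
    rw [kerFam_eq]
    exact ker_flow S _ _ hT (by rw [mul_one]; exact Subgroup.FiniteIndex.index_ne_zero)
      (flowFin (flowFree F)) (fun n => ker_Zn_of_li α hα n)
  · intro G K _ _ h1 h2
    exact detL_iff.mpr ((detL_iff.mp h1).prod (detL_iff.mp h2))
  · intro G _ H _ h
    exact detL_iff.mpr (Det.virt hE H (detL_iff.mp h))
  · intro G K _ _ f _ hf h
    exact detL_iff.mpr ((detL_iff.mp h).of_inj f fun j x hx => fk_inj f hf j x hx)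
  · intro G _ h
    refine detL_iff.mpr (Det.detect fun j x hx => ?_)
    obtain ⟨K, hK, f, h1, h2⟩ := h j x hx
    exact ⟨K, hK, f, detL_iff.mp h1, h2⟩
  · intro G _ h
    exact DetL.loc h
  · intro V P _ Λ h
    exact detL_iff.mpr (Det.graph Λ hE fun v => detL_iff.mp (h v))
  · intro K V Γ _ _ _ h1 h2
    exact detL_iff.mpr (Det.fw hE (detL_iff.mp h1) fun σ => detL_iff.mp (h2 σ))

end Run7.h16.NV
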