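import Pool.Agent.Y483.Functors
import Pool.Agent.Y75.MQ.Stm
import Pool.Agent.R615.KU.Gp
import Pool.Agent.R615.KU.Wr2

/-!
The class of the groups on which all independent natural families are injective, for the
rationalised quadratic L-groups of integral group rings, and the closure properties of a class of
groups.
-/

namespace Run7.h16.NV

open CategoryTheory Pool.Agent.Y483 Pool.Agent.Y75.MQ Pool.Agent.Y110.KW Pool.Agent.R615.KU

/-- For every group `T` and every family of natural transformations
`α_{j,i} : H_j(-; ℚ) → L₀(ℤ[- × T]; ε) ⊗ ℚ`, `i ∈ I_j`, linearly independent on `ℤ^j` for each `j`,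
the sum of all the `α_{j,i}` is injective on `G`. -/
def DetL (ε : ℤˣ) (G : Type) [Group G] : Prop :=
  ∀ (T : Type) [Group T] (I : ℕ → Type) (α : ∀ j : ℕ, I j → (hq j ⟶ lgrp ε T)),
    (∀ j, LinearIndependent ℚ fun i : I j => ((α j i).app (zn j)).hom) →
      kerFam (fun p : Σ j, I j => α p.1 p.2) (GrpCat.of G) = ⊥

/-- The class `C` of groups contains the groups `P / [S, S]` for the virtually free groups `P` and
their normal subgroups `S`, and it is closed under the operations listed above. -/
structure Closed (C : ∀ (G : Type) [Group G], Prop) : Prop where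
  /-- The groups `P / [S, S]`, `P` with a free subgroup of finite index. -/
  magnus : ∀ (P : Type) [Group P] (F : Subgroup P) [F.FiniteIndex] [IsFreeGroup F]
    (S : Subgroup P) [S.Normal], C (P ⧸ (⁅S, S⁆ : Subgroup P))
  /-- Direct products. -/
  prod : ∀ (G K : Type) [Group G] [Group K], C G → C K → C (G × K)
  /-- Overgroups of finite index. -/
  overgroup : ∀ (G : Type) [Group G] (H : Subgroup G) [H.FiniteIndex], C H → C G
  /-- Extensions with finite kernel. -/
  extension : ∀ (G K : Type) [Group G] [Group K] (f : G →* K) [Finite f.ker], Function.Surjective f →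
    C K → C G
  /-- Detection in rational homology. -/
  detection : ∀ (G : Type) [Group G], (∀ (j : ℕ) (x : (hq j).obj (GrpCat.of G)), x ≠ 0 →
    ∃ (K : Type) (_ : Group K) (f : G →* K), C K ∧
      ((hq j).map (GrpCat.ofHom f)).hom x ≠ 0) → C G
  /-- Local membership. -/
  localMem : ∀ (G : Type) [Group G], (∀ X : Finset G, ∃ H : Subgroup G, (X : Set G) ⊆ H ∧ C H) → C G
  /-- Graph products. -/
  graphProd : ∀ (V : Type) (P : V → Type) [∀ v, Group (P v)] (Λ : SimpleGraph V),
    (∀ v, C (P v)) → C (GP P Λ)
  /-- Restricted wreath products. -/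
  wreathProd : ∀ (K V Γ : Type) [Group K] [Group Γ] [MulAction Γ V], C K →
    (∀ σ : Finset V, C (fixingSubgroup Γ (σ : Set V))) → C (FW K V Γ)

end Run7.h16.NV
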