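import Pool.Agent.Run7.h16.NV.Def
import Pool.Agent.R615.KU.Gp
import Pool.Agent.R615.KU.Fk
import Pool.Agent.R615.KU.Wr2
import Pool.Agent.R615.KU.PTk
import Pool.Agent.R942.NV.VF
import Pool.Agent.Y363.PW.L

/-!
The class of the groups on which all independent natural families are injective, for the
rationalised quadratic L-groups of integral group rings.
-/

namespace Run7.h16.NV

open CategoryTheory Pool.Agent.Y483 Pool.Agent.Y75.MQ Pool.Agent.Y110.KW Pool.Agent.R615.KU
  Pool.Agent.Y483.PW Pool.Agent.R793.Mag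

/-- The isomorphism `G × T → (G × T) × Unit`. -/
def unitR (G T : Type) [Group G] [Group T] : G × T →* (G × T) × Unit :=
  (MonoidHom.id (G × T)).prod 1

/-- The isomorphism `(G × T) × Unit → G × T`. -/
def unitL (G T : Type) [Group G] [Group T] : (G × T) × Unit →* G × T :=
  MonoidHom.fst (G × T) Unit

variable (ε : ℤˣ) (T : Type) [Group T]

theorem zgMap_comp' {G K L : Type} [Group G] [Group K] [Group L] (f : G →* K) (g : K →* L) :
    zgMap (g.comp f) = (zgMap g).comp (zgMap f) := by
  apply zgHom_ext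
  intro x
  rw [NonUnitalStarRingHom.comp_apply, zgMap_single, zgMap_single, zgMap_single]; rfl

theorem zgMap_id' (G : Type) [Group G] :
    zgMap (MonoidHom.id G) = NonUnitalStarRingHom.id (MonoidAlgebra ℤ G) := by
  apply zgHom_ext
  intro g
  rw [zgMap_single]; rfl

/-- The isomorphism of `G ↦ L₀(ℤ[G × T]; ε) ⊗ ℚ` with `G ↦ L₀(ℤ[(G × T) × 1]; ε) ⊗ ℚ`. -/
noncomputable def toUnit : lgrp ε T ⟶ timesF T ⋙ lgrp ε Unit where
  app G := ModuleCat.ofHom (LQ.map ε (zgMap (unitR G T)))
  naturality G K f := by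
    apply ModuleCat.hom_ext
    apply LinearMap.ext
    intro z
    change LQ.map ε (zgMap (unitR K T)) (LQ.map ε (zgMap (timesT f.hom T)) z) =
      LQ.map ε (zgMap (timesT (timesT f.hom T) Unit)) (LQ.map ε (zgMap (unitR G T)) z)
    rw [← LQ.map_comp', ← LQ.map_comp', ← zgMap_comp', ← zgMap_comp']
    rfl

/-- The inverse isomorphism. -/
noncomputable def ofUnit : timesF T ⋙ lgrp ε Unit ⟶ lgrp ε T where
  app G := ModuleCat.ofHom (LQ.map ε (zgMap (unitL G T)))
  naturality G K f := by
    apply ModuleCat.hom_ext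
    apply LinearMap.ext
    intro z
    change LQ.map ε (zgMap (unitL K T)) (LQ.map ε (zgMap (timesT (timesT f.hom T) Unit)) z) =
      LQ.map ε (zgMap (timesT f.hom T)) (LQ.map ε (zgMap (unitL G T)) z)
    rw [← LQ.map_comp', ← LQ.map_comp', ← zgMap_comp', ← zgMap_comp']
    rfl

theorem toUnit_inj (G : GrpCat.{0}) :
    Function.Injective ((toUnit ε T).app G).hom := by
  have h : ∀ z, ((ofUnit ε T).app G).hom (((toUnit ε T).app G).hom z) = z := by
    intro z
    change LQ.map ε (zgMap (unitL G T)) (LQ.map ε (zgMap (unitR G T)) z) = z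
    rw [← LQ.map_comp', ← zgMap_comp']
    have e : (unitL G T).comp (unitR G T) = MonoidHom.id (G × T) := rfl
    rw [e, zgMap_id', LQ.map_id']
  exact Function.LeftInverse.injective h

theorem ofUnit_inj (G : GrpCat.{0}) :
    Function.Injective ((ofUnit ε T).app G).hom := by
  have h : ∀ z, ((toUnit ε T).app G).hom (((ofUnit ε T).app G).hom z) = z := by
    intro z
    change LQ.map ε (zgMap (unitR G T)) (LQ.map ε (zgMap (unitL G T)) z) = z
    rw [← LQ.map_comp', ← zgMap_comp']
    have e : (unitR G T).comp (unitL G T) = MonoidHom.id ((G × T) × Unit) := rfl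
    rw [e, zgMap_id', LQ.map_id']
  exact Function.LeftInverse.injective h

section Post

variable {E E' : GrpCat.{0} ⥤ ModuleCat.{0} ℚ} (τ : E ⟶ E')
  (hτ : ∀ G : GrpCat.{0}, Function.Injective (τ.app G).hom)

include hτ

theorem li_post {ι : Type} {j : ℕ} (α : ι → (hq j ⟶ E)) (G : GrpCat.{0})
    (h : LinearIndependent ℚ fun i : ι => ((α i).app G).hom) :
    LinearIndependent ℚ fun i : ι => ((α i ≫ τ).app G).hom := by
  have h1 := h.map' (LinearMap.compRight ℚ (M := (hq j).obj G) (τ.app G).hom) (by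
    rw [LinearMap.ker_eq_bot]
    intro f g hfg
    apply LinearMap.ext
    intro x
    exact hτ G (DFunLike.congr_fun hfg x))
  exact h1

theorem kerFam_post {B : Type} {d : B → ℕ} (α : ∀ b : B, hq (d b) ⟶ E) (G : Type) [Group G] :
    kerFam (fun b => α b ≫ τ) (GrpCat.of G) = kerFam α (GrpCat.of G) := by
  classical
  rw [kerFam_eq, kerFam_eq]
  have h : tb d (fun b => α b ≫ τ) G = (τ.app (GrpCat.of G)).hom ∘ₗ (tb d α G) := by
    apply DirectSum.linearMap_ext
    intro b
    apply LinearMap.ext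
    intro y
    have e1 := tb_of d (fun b => α b ≫ τ) G b y
    have e2 := tb_of d α G b y
    change tb d (fun b => α b ≫ τ) G (DirectSum.of (fun b : B => HQ (d b) G) b y) =
      (τ.app (GrpCat.of G)).hom (tb d α G (DirectSum.of (fun b : B => HQ (d b) G) b y))
    rw [e1, e2]
    rfl
  rw [h, LinearMap.ker_comp_of_ker_eq_bot _ (LinearMap.ker_eq_bot.mpr (hτ _))]

end Post

theorem detL_iff {ε : ℤˣ} {G : Type} [Group G] : DetL ε G ↔ Det (lgrp ε Unit) G := by
  constructor
  · intro h T _ I α hα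
    have h1 := h T I (fun j i => α j i ≫ ofUnit ε T) fun j =>
      li_post (ofUnit ε T) (ofUnit_inj ε T) (fun i => α j i) (zn j) (hα j)
    rwa [kerFam_post (ofUnit ε T) (ofUnit_inj ε T) (fun p : Σ j, I j => α p.1 p.2) G] at h1
  · intro h T _ I α hα
    have h1 := h T I (fun j i => α j i ≫ toUnit ε T) fun j =>
      li_post (toUnit ε T) (toUnit_inj ε T) (fun i => α j i) (zn j) (hα j)
    rwa [kerFam_post (toUnit ε T) (toUnit_inj ε T) (fun p : Σ j, I j => α p.1 p.2) G] at h1

end Run7.h16.NV
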