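import Pool.Agent.Run7.h16.NV.DetL

/-!
Continuity of rational homology and of the rationalised L-groups of group rings, and the closure of
the class of the detecting groups under local membership.
-/

namespace Run7.h16.NV

open CategoryTheory Pool.Agent.Y483 Pool.Agent.Y75.MQ Pool.Agent.Y110.KW Pool.Agent.R615.KU
  Pool.Agent.Y483.PW Pool.Agent.R793.Mag Filter Matrix

section Ring

variable {R : Type} [Ring R] [StarRing R] {ε : ℤˣ} {I : Type} [SemilatticeSup I] [Nonempty I]
  {S : I → Type} [∀ i, Ring (S i)] [∀ i, StarRing (S i)] (f : ∀ i, S i →⋆ₙ+* R)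

/-- An element of `R` is covered from some stage on. -/
def Cov (r : R) : Prop := ∀ᶠ i in (atTop : Filter I), ∃ s : S i, f i s = r

variable (hcov : ∀ r : R, Cov f r) (hinj : ∀ i, Function.Injective (f i))

include hcov in
theorem mat_lift {m n : ℕ} (M : Matrix (Fin m) (Fin n) R) :
    ∀ᶠ i in (atTop : Filter I), ∃ M' : Matrix (Fin m) (Fin n) (S i), M'.map (f i) = M := by
  have h : ∀ a b, ∀ᶠ i in (atTop : Filter I), ∃ s : S i, f i s = M a b := fun a b => hcov _
  have h' : ∀ᶠ i in (atTop : Filter I), ∀ a b, ∃ s : S i, f i s = M a b := by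
    rw [eventually_all]
    intro a
    rw [eventually_all]
    intro b
    exact h a b
  filter_upwards [h'] with i hi
  choose s hs using hi
  refine ⟨Matrix.of s, ?_⟩
  ext a b
  exact hs a b

include hinj in
theorem mat_inj (i : I) {m n : Type} {M N : Matrix m n (S i)} (h : M.map (f i) = N.map (f i)) :
    M = N := by
  ext a b
  exact hinj i (congrFun (congrFun h a) b)

include hcov hinj in
theorem form_lift {n : ℕ} (x : QForm R ε (Fin n)) :
    ∀ᶠ i in (atTop : Filter I), ∃ x' : QForm (S i) ε (Fin n), x'.map (f i) = x := by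
  filter_upwards [mat_lift f hcov x.θ, mat_lift f hcov x.ψ] with i h1 h2
  obtain ⟨θ, hθ⟩ := h1
  obtain ⟨ψ, hψ⟩ := h2
  refine ⟨⟨θ, ψ, ?_, ?_, ?_⟩, ?_⟩
  · apply mat_inj f hinj i
    rw [← dag_map, hψ, x.dag_psi]
  · apply mat_inj f hinj i
    rw [Matrix.map_mul, Matrix.map_mul, Matrix.map_add (f i) (map_add (f i)), ← dag_map, hψ, hθ,
      x.psi_phi_psi]
  · apply mat_inj f hinj i
    rw [Matrix.map_mul, Matrix.map_mul, Matrix.map_mul, Matrix.map_mul,
      Matrix.map_add (f i) (map_add (f i)), ← dag_map, hψ, hθ, x.compress]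
  · apply QForm.ext
    · exact hθ
    · exact hψ

theorem conj_map {S' R' : Type} [Ring S'] [StarRing S'] [Ring R'] [StarRing R'] (g : S' →⋆ₙ+* R')
    {m n : Type} (u : Matrix m n S') : (u.map g)ᴴ = uᴴ.map g := by
  ext i j; simp [map_star]

include hcov hinj in
theorem isom_lift {m n : ℕ} {x : QForm R ε (Fin m)} {y : QForm R ε (Fin n)}
    (h : Isometric x y) :
    ∀ᶠ i in (atTop : Filter I), ∀ (x' : QForm (S i) ε (Fin m)) (y' : QForm (S i) ε (Fin n)),
      x'.map (f i) = x → y'.map (f i) = y → Isometric x' y' := by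
  obtain ⟨u, h1, χ, h2⟩ := h
  filter_upwards [mat_lift f hcov u, mat_lift f hcov χ] with i hu hχ
  obtain ⟨u', hu'⟩ := hu
  obtain ⟨χ', hχ'⟩ := hχ
  rintro x' y' rfl rfl
  refine ⟨u', ?_, χ', ?_⟩
  · apply mat_inj f hinj i
    rw [Matrix.map_mul, Matrix.map_mul, ← conj_map, hu']
    exact h1
  · apply mat_inj f hinj i
    rw [Matrix.map_mul, Matrix.map_mul, ← conj_map, hu', Matrix.map_add (f i) (map_add (f i)),
      Matrix.map_sub (f i) (map_sub (f i)), ← dag_map, hχ']
    exact h2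

include hcov hinj in
theorem hyp_lift {m : ℕ} {x : QForm R ε (Fin m)} (h : IsHyp x) :
    ∀ᶠ i in (atTop : Filter I), ∀ (x' : QForm (S i) ε (Fin m)),
      x'.map (f i) = x → IsHyp x' := by
  obtain ⟨l, h1, h2, h3, χ, h4⟩ := h
  filter_upwards [mat_lift f hcov l, mat_lift f hcov χ] with i hl hχ
  obtain ⟨l', hl'⟩ := hl
  obtain ⟨χ', hχ'⟩ := hχ
  rintro x' rfl
  refine ⟨l', ?_, ?_, ?_, χ', ?_⟩
  · apply mat_inj f hinj i
    rw [Matrix.map_mul, hl', h1]
  · apply mat_inj f hinj i
    rw [Matrix.map_mul, ← QForm.map_e, hl', h2]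
  · apply mat_inj f hinj i
    rw [Matrix.map_mul, ← QForm.map_e, hl', h3]
  · apply mat_inj f hinj i
    rw [Matrix.map_add (f i) (map_add (f i)), Matrix.map_mul, ← conj_map,
      Matrix.map_sub (f i) (map_sub (f i)), ← dag_map, hχ', hl', ← QForm.map_phi]
    exact h4

include hinj in
theorem qmap_inj (i : I) {n : ℕ} {x y : QForm (S i) ε (Fin n)} (h : x.map (f i) = y.map (f i)) :
    x = y := by
  apply QForm.ext
  · exact mat_inj f hinj i (congrArg QForm.θ h)
  · exact mat_inj f hinj i (congrArg QForm.ψ h)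

include hinj in
theorem formsMap_inj (i : I) : Function.Injective (formsMap ε (f i)) := by
  rintro ⟨n, x⟩ ⟨m, y⟩ h
  have hn : n = m := congrArg Sigma.fst h
  subst hn
  have h2 : x.map (f i) = y.map (f i) := by
    have := (Sigma.mk.inj_iff.mp h).2
    exact eq_of_heq this
  rw [qmap_inj f hinj i h2]

include hcov hinj in
theorem rel_lift (r : Forms R ε →₀ ℚ) (hr : LRel R ε r) :
    ∀ᶠ i in (atTop : Filter I), ∃ s ∈ LSpan (S i) ε, Finsupp.mapDomain (formsMap ε (f i)) s = r := by
  rcases hr with ⟨⟨m, x⟩, ⟨n, y⟩, h, rfl⟩ | ⟨n, x, y, z, h1, h2, h3, h4, rfl⟩ | ⟨⟨m, x⟩, h, rfl⟩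
  · filter_upwards [form_lift f hcov hinj x, form_lift f hcov hinj y,
      isom_lift f hcov hinj h] with i hx hy hi
    obtain ⟨x', rfl⟩ := hx
    obtain ⟨y', rfl⟩ := hy
    refine ⟨Finsupp.single ⟨m, x'⟩ 1 - Finsupp.single ⟨n, y'⟩ 1, Submodule.subset_span
      (Or.inl ⟨⟨m, x'⟩, ⟨n, y'⟩, hi x' y' rfl rfl, rfl⟩), ?_⟩
    rw [← Finsupp.lmapDomain_apply ℚ ℚ, map_sub, Finsupp.lmapDomain_apply, Finsupp.lmapDomain_apply,
      Finsupp.mapDomain_single, Finsupp.mapDomain_single]
    rfl
  · filter_upwards [form_lift f hcov hinj x, form_lift f hcov hinj y,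
      form_lift f hcov hinj z] with i hx hy hz
    obtain ⟨x', rfl⟩ := hx
    obtain ⟨y', rfl⟩ := hy
    obtain ⟨z', rfl⟩ := hz
    refine ⟨Finsupp.single ⟨n, z'⟩ 1 - Finsupp.single ⟨n, x'⟩ 1 - Finsupp.single ⟨n, y'⟩ 1,
      Submodule.subset_span (Or.inr (Or.inl ⟨n, x', y', z', ?_, ?_, ?_, ?_, rfl⟩)), ?_⟩
    · apply mat_inj f hinj i
      rw [Matrix.map_add (f i) (map_add (f i))]
      exact h1
    · apply mat_inj f hinj i
      rw [Matrix.map_add (f i) (map_add (f i))]
      exact h2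
    · apply mat_inj f hinj i
      rw [Matrix.map_mul, ← QForm.map_phi, Matrix.map_zero (f i) (map_zero (f i))]
      exact h3
    · apply mat_inj f hinj i
      rw [Matrix.map_mul, ← QForm.map_phi, Matrix.map_zero (f i) (map_zero (f i))]
      exact h4
    · rw [← Finsupp.lmapDomain_apply ℚ ℚ, map_sub, map_sub, Finsupp.lmapDomain_apply,
        Finsupp.lmapDomain_apply, Finsupp.lmapDomain_apply,
        Finsupp.mapDomain_single, Finsupp.mapDomain_single, Finsupp.mapDomain_single]
      rfl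
  · filter_upwards [form_lift f hcov hinj x, hyp_lift f hcov hinj h] with i hx hi
    obtain ⟨x', rfl⟩ := hx
    refine ⟨Finsupp.single ⟨m, x'⟩ 1, Submodule.subset_span
      (Or.inr (Or.inr ⟨⟨m, x'⟩, hi x' rfl, rfl⟩)), ?_⟩
    rw [Finsupp.mapDomain_single]
    rfl

include hcov hinj in
theorem span_lift (r : Forms R ε →₀ ℚ) (hr : r ∈ LSpan R ε) :
    ∀ᶠ i in (atTop : Filter I), ∃ s ∈ LSpan (S i) ε, Finsupp.mapDomain (formsMap ε (f i)) s = r := by
  induction hr using Submodule.span_induction with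
  | mem x hx => exact rel_lift f hcov hinj x hx
  | zero =>
    refine Eventually.of_forall fun i => ⟨0, Submodule.zero_mem _, Finsupp.mapDomain_zero⟩
  | add x y _ _ hx hy =>
    filter_upwards [hx, hy] with i h1 h2
    obtain ⟨s, hs, rfl⟩ := h1
    obtain ⟨t, ht, rfl⟩ := h2
    exact ⟨s + t, Submodule.add_mem _ hs ht, Finsupp.mapDomain_add⟩
  | smul a x _ hx =>
    filter_upwards [hx] with i h1
    obtain ⟨s, hs, rfl⟩ := h1
    exact ⟨a • s, Submodule.smul_mem _ a hs, Finsupp.mapDomain_smul a s⟩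

include hcov hinj in
/-- A class which dies in the union dies at some stage. -/
theorem lq_cont (g : ∀ i j : I, i ≤ j → (S i →⋆ₙ+* S j))
    (hg : ∀ i j (h : i ≤ j), (f j).comp (g i j h) = f i) (i : I) (z : LQ (S i) ε)
    (hz : LQ.map ε (f i) z = 0) : ∀ᶠ j in (atTop : Filter I), ∀ h : i ≤ j,
      LQ.map ε (g i j h) z = 0 := by
  obtain ⟨r, rfl⟩ := Submodule.mkQ_surjective (LSpan (S i) ε) z
  have h1 : Finsupp.mapDomain (formsMap ε (f i)) r ∈ LSpan R ε := by
    rw [← Submodule.Quotient.mk_eq_zero]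
    exact hz
  filter_upwards [span_lift f hcov hinj _ h1] with j hj h
  obtain ⟨s, hs, hsr⟩ := hj
  have h2 : Finsupp.mapDomain (formsMap ε (g i j h)) r = s := by
    apply Finsupp.mapDomain_injective (formsMap_inj f hinj j)
    rw [hsr, ← Finsupp.mapDomain_comp]
    congr 1
    funext x
    change formsMap ε (f j) (formsMap ε (g i j h) x) = formsMap ε (f i) x
    rw [← hg i j h]
    rfl
  change LQ.mk (S j) ε (Finsupp.mapDomain (formsMap ε (g i j h)) r) = 0
  rw [h2]
  exact (Submodule.Quotient.mk_eq_zero _).mpr hs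

end Ring

section Group

open Classical in
/-- The subgroup generated by a finite set. -/
abbrev Cl {G : Type} [Group G] (X : Finset G) : Subgroup G := Subgroup.closure (X : Set G)

/-- The inclusion of the subgroups generated by two finite sets. -/
def inc {G : Type} [Group G] {X Y : Finset G} (h : X ≤ Y) : Cl X →* Cl Y :=
  Subgroup.inclusion (Subgroup.closure_mono (Finset.coe_subset.mpr h))

variable {G T : Type} [Group G] [Group T]

theorem zgMap_inj {H K : Type} [Group H] [Group K] (f : H →* K) (hf : Function.Injective f) :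
    Function.Injective (zgMap f) := by
  have h : ∀ x, zgMap f x = MonoidAlgebra.mapDomain f x := by
    intro x
    induction x using MonoidAlgebra.induction_linear with
    | zero => rw [map_zero, MonoidAlgebra.mapDomain_zero]
    | add x y hx hy => rw [map_add, MonoidAlgebra.mapDomain_add, hx, hy]
    | single m r => rw [zgMap_single, MonoidAlgebra.mapDomain_single]
  intro x y hxy
  rw [h, h] at hxy
  exact MonoidAlgebra.mapDomain_injective hf hxy

theorem timesT_inj {H K : Type} [Group H] [Group K] (f : H →* K) (hf : Function.Injective f) :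
    Function.Injective (timesT f T) := by
  rintro ⟨a, t⟩ ⟨b, s⟩ h
  have h1 := congrArg Prod.fst h
  have h2 := congrArg Prod.snd h
  exact Prod.ext (hf h1) h2

open Classical in
theorem zg_cov (r : MonoidAlgebra ℤ (G × T)) :
    ∀ᶠ X in (atTop : Filter (Finset G)), ∃ s : MonoidAlgebra ℤ (Cl X × T),
      zgMap (timesT (Cl X).subtype T) s = r := by
  induction r using MonoidAlgebra.induction_linear with
  | zero => exact Eventually.of_forall fun X => ⟨0, map_zero _⟩
  | add x y hx hy =>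
    filter_upwards [hx, hy] with X h1 h2
    obtain ⟨s, rfl⟩ := h1
    obtain ⟨t, rfl⟩ := h2
    exact ⟨s + t, map_add _ _ _⟩
  | single m n =>
    filter_upwards [eventually_ge_atTop ({m.1} : Finset G)] with X hX
    have h1 : m.1 ∈ Cl X := Subgroup.subset_closure (hX (Finset.mem_singleton_self _))
    exact ⟨MonoidAlgebra.single (⟨m.1, h1⟩, m.2) n, by rw [zgMap_single]; rfl⟩

open Classical in
theorem lgrp_cont (ε : ℤˣ) (X : Finset G) (z : (lgrp ε T).obj (GrpCat.of (Cl X)))
    (hz : emap (lgrp ε T) (Cl X).subtype z = 0) : ∀ᶠ Y in (atTop : Filter (Finset G)),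
      ∀ h : X ≤ Y, emap (lgrp ε T) (inc h) z = 0 := by
  have h := lq_cont (R := MonoidAlgebra ℤ (G × T)) (ε := ε) (I := Finset G)
    (S := fun X => MonoidAlgebra ℤ (Cl X × T)) (fun X => zgMap (timesT (Cl X).subtype T))
    (fun r => zg_cov r) (fun X => zgMap_inj _ (timesT_inj _ (Subgroup.subtype_injective _)))
    (fun X Y h => zgMap (timesT (inc h) T)) (by
      intro X Y h
      rw [← zgMap_comp]
      rfl) X z hz
  exact h

theorem mp_inj {X Y : Type} [Nonempty X] (f : X → Y) (hf : Function.Injective f) (n : ℕ) :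
    Function.Injective (mp n f (LinearMap.id : ℚ →ₗ[ℚ] ℚ)) := by
  obtain ⟨g, hg⟩ := hf.hasLeftInverse
  intro z w h
  have h1 : ∀ z, mp n g (LinearMap.id : ℚ →ₗ[ℚ] ℚ) (mp n f (LinearMap.id : ℚ →ₗ[ℚ] ℚ) z) = z := by
    intro z
    rw [mp_mp]
    have e : g ∘ f = id := funext hg
    rw [e]
    exact mp_id n z
  rw [← h1 z, h, h1]

open Classical in
theorem chain_lift {j : ℕ} (z : Pool.Agent.Y483.T j G ℚ) :
    ∀ᶠ X in (atTop : Filter (Finset G)), ∃ z' : Pool.Agent.Y483.T j (Cl X) ℚ,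
      mp j (Cl X).subtype LinearMap.id z' = z := by
  induction z using Finsupp.induction_linear with
  | zero => exact Eventually.of_forall fun X => ⟨0, map_zero _⟩
  | add x y hx hy =>
    filter_upwards [hx, hy] with X h1 h2
    obtain ⟨s, rfl⟩ := h1
    obtain ⟨t, rfl⟩ := h2
    exact ⟨s + t, map_add _ _ _⟩
  | single m n =>
    filter_upwards [eventually_ge_atTop (Finset.univ.image m)] with X hX
    have h1 : ∀ i, m i ∈ Cl X := fun i => Subgroup.subset_closure
      (hX (Finset.mem_image_of_mem m (Finset.mem_univ i)))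
    refine ⟨Finsupp.single (fun i => ⟨m i, h1 i⟩) n, ?_⟩
    rw [mp_single]
    rfl

open Classical in
theorem hq_lift {j : ℕ} (x : HQ j G) :
    ∀ᶠ X in (atTop : Filter (Finset G)), ∃ x' : HQ j (Cl X), hqMap (Cl X).subtype j x' = x := by
  obtain ⟨z, hz⟩ := exists_rpr (Rep.trivial ℚ G ℚ) j x
  filter_upwards [chain_lift z] with X hX
  obtain ⟨z', hz'⟩ := hX
  have hc : Cyc (tQ (Cl X)) j z' := by
    cases j with
    | zero => exact Cyc.zero _ _
    | succ k =>
      rw [cyc_succ]
      apply mp_inj (Cl X).subtype (Subgroup.subtype_injective _) k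
      have h1 := dd_mp (ρ := tQ (Cl X)) (τ := tQ G) (Cl X).subtype
        (LinearMap.id : ℚ →ₗ[ℚ] ℚ) (fun _ _ => rfl) k z'
      have h2 := hz.cyc
      rw [cyc_succ] at h2
      rw [map_zero, ← h1, hz']
      exact h2
  obtain ⟨x', hx'⟩ := exists_class (A := Rep.trivial ℚ (Cl X) ℚ) j z' hc
  refine ⟨x', ?_⟩
  have h3 := hx'.hq (Cl X).subtype
  have h4 := h3.sub hz
  rw [hz', sub_self] at h4
  exact sub_eq_zero.mp (h4.eq_zero_iff.mpr ⟨0, map_zero _⟩)

open Classical in
theorem hb_lift {B : Type} (d : B → ℕ) (x : HB d G) :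
    ∀ᶠ X in (atTop : Filter (Finset G)), ∃ x' : HB d (Cl X), hbMap d (Cl X).subtype x' = x := by
  induction x using DirectSum.induction_on with
  | zero => exact Eventually.of_forall fun X => ⟨0, map_zero _⟩
  | of b y =>
    filter_upwards [hq_lift y] with X hX
    obtain ⟨x', rfl⟩ := hX
    exact ⟨DirectSum.of (fun b : B => HQ (d b) (Cl X)) b x', hbMap_of d _ b x'⟩
  | add x y hx hy =>
    filter_upwards [hx, hy] with X h1 h2
    obtain ⟨s, rfl⟩ := h1
    obtain ⟨t, rfl⟩ := h2
    exact ⟨s + t, map_add _ _ _⟩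

/-- **Local membership.** -/
theorem DetL.loc {ε : ℤˣ} {G : Type} [Group G]
    (h : ∀ X : Finset G, ∃ H : Subgroup G, (X : Set G) ⊆ H ∧ DetL ε H) : DetL ε G := by
  classical
  intro T _ I α hα
  change LinearMap.ker (tb (fun p : Σ j, I j => p.1) (fun p => α p.1 p.2) G) = ⊥
  rw [eq_bot_iff]
  intro x hx
  rw [Submodule.mem_bot]
  obtain ⟨X, hX⟩ := (hb_lift _ x).exists
  obtain ⟨x', hx'⟩ := hX
  have h1 : emap (lgrp ε T) (Cl X).subtype (tb _ (fun p : Σ j, I j => α p.1 p.2) (Cl X) x') = 0 := by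
    rw [tb_nat, hx']
    exact hx
  obtain ⟨Y, hY1, hY2⟩ := ((lgrp_cont ε X _ h1).and (eventually_ge_atTop X)).exists
  have h2 := hY1 hY2
  rw [tb_nat] at h2
  obtain ⟨H, hYH, hH⟩ := h Y
  have hle : Cl Y ≤ H := (Subgroup.closure_le H).mpr hYH
  have h3 := tb_map _ (fun p : Σ j, I j => α p.1 p.2) (Subgroup.inclusion hle) h2
  have h4 : LinearMap.ker (tb (fun p : Σ j, I j => p.1) (fun p => α p.1 p.2) H) = ⊥ :=
    hH T I α hα
  rw [eq_bot_iff] at h4
  have h5 := (Submodule.mem_bot ℚ).mp (h4 (LinearMap.mem_ker.mpr h3))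
  rw [← hx']
  have e : (Cl X).subtype = (H.subtype.comp (Subgroup.inclusion hle)).comp (inc hY2) := rfl
  rw [e, hbMap_comp, hbMap_comp, h5, map_zero]

end Group

end Run7.h16.NV
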